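import Pool.Agent.W46.HM.Stm

/-!
# HM, tasks LEV and MOM: level sets and moments of the multiplicity
-/

set_option autoImplicit false

open Finset
open scoped Classical

namespace Pool.Agent.W372.HM
open Pool.Agent.W904.AK Pool.Agent.W46.HD Pool.Agent.W46.HM

/-- Entropy of the uniform law on a set. -/
theorem H_id_unif {Θ : Type} [Fintype Θ] (S : Finset Θ) (hS : S.Nonempty) :
    ∃ p : Θ → ℝ, IsLaw p ∧ (∀ z, p z ≠ 0 → z ∈ S) ∧ H p id = Real.log S.card := by
  have hc : (0 : ℝ) < S.card := by exact_mod_cast hS.card_pos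
  obtain ⟨p, hp1, hp2⟩ : ∃ p : Θ → ℝ, (∀ z ∈ S, p z = 1 / (S.card : ℝ)) ∧ ∀ z, z ∉ S → p z = 0 :=
    ⟨fun z => if z ∈ S then 1 / (S.card : ℝ) else 0, fun z hz => if_pos hz, fun z hz => if_neg hz⟩
  have hsum : ∀ g : Θ → ℝ, ∑ z, p z * g z = ∑ z ∈ S, 1 / (S.card : ℝ) * g z := by
    intro g
    rw [← Finset.sum_subset (Finset.subset_univ S) (fun z _ hz => by rw [hp2 z hz, zero_mul])]
    exact Finset.sum_congr rfl fun z hz => by rw [hp1 z hz]
  refine ⟨p, ⟨fun z => ?_, ?_⟩, fun z hz => ?_, ?_⟩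
  · by_cases hz : z ∈ S
    · rw [hp1 z hz]
      positivity
    · rw [hp2 z hz]
  · have h1 := hsum (fun _ => 1)
    simp only [mul_one] at h1
    rw [h1, Finset.sum_const, nsmul_eq_mul]
    field_simp
  · by_contra h1
    exact hz (hp2 z h1)
  · unfold H
    rw [hsum]
    have h1 : ∀ z ∈ S, 1 / (S.card : ℝ) * -Real.log (im p id (id z)) =
        1 / (S.card : ℝ) * Real.log S.card := by
      intro z hz
      have h2 : im p id (id z) = 1 / (S.card : ℝ) := by
        unfold im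
        rw [Finset.sum_eq_single z]
        · simp [hp1 z hz]
        · intro y _ hy
          rw [if_neg (by simpa using hy)]
        · intro h
          exact absurd (Finset.mem_univ z) h
      rw [h2, one_div, Real.log_inv, neg_neg]
    rw [Finset.sum_congr rfl h1, Finset.sum_const, nsmul_eq_mul]
    field_simp

theorem LEV (h : S_ITER) : S_LEV (167519 / 100000) := by
  intro d hd
  obtain ⟨C0, hC0, hS⟩ := h d hd (1 / 100000) (by norm_num)
  refine ⟨Real.exp (C0 / d), (Real.exp_pos _).le, ?_⟩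
  intro n Ω _ _ A D hfam F m hm hF
  have hn : (1 : ℝ) ≤ n := by exact_mod_cast hfam.pos
  have hM : (1 : ℝ) ≤ (Fintype.card Ω : ℝ) := by exact_mod_cast Fintype.card_pos
  have hdp : (0 : ℝ) < d := by
    have : 0 < d := by omega
    exact_mod_cast this
  rcases F.eq_empty_or_nonempty with hE | hE
  · rw [hE, Finset.card_empty, Nat.cast_zero]
    positivity
  obtain ⟨Inc, hInc⟩ : ∃ Inc : Finset (Ω × Fin n),
      Inc = Finset.univ.filter fun z : Ω × Fin n => (z.2, cell A D z.2 z.1) ∈ F := ⟨_, rfl⟩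
  have hcard : m * F.card ≤ Inc.card := by
    have h1 : Inc.card = ∑ x ∈ F, mult A D x.1 x.2 := by
      have h0 := Finset.card_eq_sum_card_fiberwise
        (s := Finset.univ.filter fun z : Ω × Fin n => (z.2, cell A D z.2 z.1) ∈ F)
        (f := fun z : Ω × Fin n => (z.2, cell A D z.2 z.1)) (t := F)
        (fun z hz => by simpa using hz)
      rw [hInc, h0]
      refine Finset.sum_congr rfl fun x hx => ?_
      unfold mult
      refine Finset.card_bij (fun z _ => z.1) ?_ ?_ ?_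
      · intro z hz
        rw [Finset.mem_filter, Finset.mem_filter] at hz
        rw [Finset.mem_filter]
        refine ⟨Finset.mem_univ _, ?_⟩
        rw [← hz.2]
      · intro z hz z' hz' hzz
        rw [Finset.mem_filter] at hz hz'
        have e1 := congrArg Prod.fst (hz.2.trans hz'.2.symm)
        exact Prod.ext hzz e1
      · intro w hw
        rw [Finset.mem_filter] at hw
        refine ⟨(w, x.1), ?_, rfl⟩
        rw [Finset.mem_filter, Finset.mem_filter]
        have e1 : (x.1, cell A D x.1 w) = x := by rw [hw.2]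
        exact ⟨⟨Finset.mem_univ _, by rw [e1]; exact hx⟩, e1⟩
    rw [h1, mul_comm]
    push_cast
    rw [← nsmul_eq_mul]
    exact Finset.card_nsmul_le_sum F _ m hF
  have hFc : (0 : ℝ) < F.card := by exact_mod_cast hE.card_pos
  have hIc : (0 : ℝ) < Inc.card := lt_of_lt_of_le (by positivity) hcard
  have hIne : Inc.Nonempty := by
    rw [← Finset.card_pos]
    exact_mod_cast hIc
  obtain ⟨p, hlaw, hp, hid⟩ := H_id_unif Inc hIne
  have hmain := hS n Ω A D hfam p hlaw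
  have hJ : H p (fun z => (z.2, cell A D z.2 z.1)) ≤ Real.log F.card := by
    refine H_le_log_card hlaw _ F fun z hz => ?_
    have : z ∈ Inc := hp z hz
    rw [hInc, Finset.mem_filter] at this
    exact this.2
  have hh1 : H p Prod.fst ≤ Real.log (Fintype.card Ω) := by
    have := H_le_log_card hlaw (Prod.fst : Ω × Fin n → Ω) Finset.univ
      (fun _ _ => Finset.mem_univ _)
    rwa [Finset.card_univ] at this
  have hi : Real.log m + Real.log F.card ≤ Real.log Inc.card := by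
    rw [← Real.log_mul (by positivity) (by positivity)]
    exact Real.log_le_log (by positivity) hcard
  unfold aa hh mi lam at hmain
  rw [hid] at hmain
  obtain ⟨J, hJ'⟩ : ∃ J, J = H p (fun z => (z.2, cell A D z.2 z.1)) := ⟨_, rfl⟩
  obtain ⟨a, ha'⟩ : ∃ a, a = H p Prod.fst := ⟨_, rfl⟩
  obtain ⟨s, hs'⟩ : ∃ s, s = H p (Prod.snd : Ω × Fin n → Fin n) := ⟨_, rfl⟩
  obtain ⟨i, hi'⟩ : ∃ i, i = Real.log Inc.card := ⟨_, rfl⟩
  obtain ⟨f, hf'⟩ : ∃ f, f = Real.log F.card := ⟨_, rfl⟩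
  obtain ⟨LM, hLM⟩ : ∃ LM, LM = Real.log (Fintype.card Ω) := ⟨_, rfl⟩
  obtain ⟨Lm, hLm⟩ : ∃ Lm, Lm = Real.log m := ⟨_, rfl⟩
  obtain ⟨Ln, hLn⟩ : ∃ Ln, Ln = Real.log n := ⟨_, rfl⟩
  rw [← hJ', ← ha', ← hs', ← hi', ← hLM, ← hLn] at hmain
  rw [← hJ', ← hf'] at hJ
  rw [← ha', ← hLM] at hh1
  rw [← hLm, ← hf', ← hi'] at hi
  have hd25 : (25 : ℝ) ≤ d := by exact_mod_cast hd
  have hfin : d * f ≤ d * Ln - LM + (d + 167519 / 100000) * (LM - Lm) + C0 := by
    have e1 : 0 ≤ ((d : ℝ) + 167519 / 100000) * (i - (Lm + f)) :=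
      mul_nonneg (by linarith) (by linarith)
    have e2 : 0 ≤ ((d : ℝ) + 67518 / 100000) * (LM - a) :=
      mul_nonneg (by linarith) (by linarith)
    nlinarith
  have hfin2 : f ≤ C0 / d + Ln + (-(1 : ℝ) / d) * LM + (1 + 167519 / 100000 / d) * (LM - Lm) := by
    have e1 : C0 / d + Ln + (-(1 : ℝ) / d) * LM + (1 + 167519 / 100000 / d) * (LM - Lm) =
        (d * Ln - LM + (d + 167519 / 100000) * (LM - Lm) + C0) / d := by
      field_simp
      ring
    rw [e1, le_div_iff₀ hdp]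
    linarith
  have hM0 : (0 : ℝ) < (Fintype.card Ω : ℝ) := by linarith
  have hm0 : 0 < m := by linarith
  have hn0 : (0 : ℝ) < n := by linarith
  calc (F.card : ℝ) = Real.exp f := by rw [hf', Real.exp_log hFc]
    _ ≤ Real.exp (C0 / d + Ln + (-(1 : ℝ) / d) * LM + (1 + 167519 / 100000 / d) * (LM - Lm)) :=
        Real.exp_le_exp.2 hfin2
    _ = Real.exp (C0 / d) * n * (Fintype.card Ω : ℝ) ^ (-(1 : ℝ) / d) *
        ((Fintype.card Ω : ℝ) / m) ^ (1 + 167519 / 100000 / (d : ℝ)) := by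
        rw [Real.exp_add, Real.exp_add, Real.exp_add, hLn, Real.exp_log hn0,
          Real.rpow_def_of_pos hM0, Real.rpow_def_of_pos (div_pos hM0 hm0),
          Real.log_div hM0.ne' hm0.ne', ← hLM, ← hLm, mul_comm LM, mul_comm (LM - Lm)]

theorem MOM (h : S_LEV (167519 / 100000)) (q : ℝ) : S_MOM q := by
  intro d hd hq
  obtain ⟨C0, hC0, hL⟩ := h d hd
  have hdp : (0 : ℝ) < d := by
    have : 0 < d := by omega
    exact_mod_cast this
  obtain ⟨c, hc⟩ : ∃ c : ℝ, c = 1 + 167519 / 100000 / (d : ℝ) := ⟨_, rfl⟩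
  obtain ⟨δ, hδ⟩ : ∃ δ : ℝ, δ = q - c := ⟨_, rfl⟩
  have hδ0 : 0 < δ := by
    have : (0 : ℝ) < (16752 / 10000) / (d : ℝ) - 167519 / 100000 / (d : ℝ) := by
      rw [← sub_div]
      positivity
    rw [hδ, hc]
    linarith
  have hq0 : 0 < q := by
    have : (0 : ℝ) < (16752 / 10000) / (d : ℝ) := by positivity
    linarith
  obtain ⟨r, hr⟩ : ∃ r : ℝ, r = (2 : ℝ) ^ δ := ⟨_, rfl⟩
  have hr1 : 1 < r := by
    rw [hr]
    exact Real.one_lt_rpow (by norm_num) hδ0
  refine ⟨C0 * (2 ^ q * (r / (r - 1))), by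
    have : 0 < r - 1 := by linarith
    positivity, ?_⟩
  intro n Ω _ _ A D hfam F
  have hM : (1 : ℝ) ≤ (Fintype.card Ω : ℝ) := by exact_mod_cast Fintype.card_pos
  have hM0 : (0 : ℝ) < (Fintype.card Ω : ℝ) := by linarith
  obtain ⟨μ, hμ⟩ : ∃ μ : Fin n × (Fin d → ℤ) → ℕ, μ = fun x => mult A D x.1 x.2 := ⟨_, rfl⟩
  obtain ⟨K, hK⟩ : ∃ K, K = Nat.log 2 (Fintype.card Ω) := ⟨_, rfl⟩
  have hμM : ∀ x, μ x ≤ Fintype.card Ω := by
    intro x
    rw [hμ]
    exact Finset.card_le_univ _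
  obtain ⟨F', hF'⟩ : ∃ F', F' = F.filter fun x => 1 ≤ μ x := ⟨_, rfl⟩
  have h1 : ∑ x ∈ F, ((mult A D x.1 x.2 : ℕ) : ℝ) ^ q = ∑ x ∈ F', ((μ x : ℕ) : ℝ) ^ q := by
    rw [hF', Finset.sum_filter]
    refine Finset.sum_congr rfl fun x _ => ?_
    split_ifs with hx
    · rw [hμ]
    · have : μ x = 0 := by omega
      have h2 : mult A D x.1 x.2 = μ x := by rw [hμ]
      rw [h2, this, Nat.cast_zero, Real.zero_rpow hq0.ne']
  have h2 : ∀ x ∈ F', ((μ x : ℕ) : ℝ) ^ q ≤ 2 ^ q * ((2 : ℝ) ^ q) ^ (Nat.log 2 (μ x)) := by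
    intro x hx
    have h3 : μ x < 2 ^ (Nat.log 2 (μ x) + 1) := Nat.lt_pow_succ_log_self (by norm_num) _
    have h4 : ((μ x : ℕ) : ℝ) ≤ 2 ^ (Nat.log 2 (μ x) + 1) := by exact_mod_cast h3.le
    calc ((μ x : ℕ) : ℝ) ^ q ≤ ((2 : ℝ) ^ (Nat.log 2 (μ x) + 1)) ^ q :=
          Real.rpow_le_rpow (by positivity) h4 hq0.le
      _ = 2 ^ q * ((2 : ℝ) ^ q) ^ (Nat.log 2 (μ x)) := by
          rw [pow_succ, mul_comm, Real.mul_rpow (by positivity) (by positivity),
            ← Real.rpow_natCast, ← Real.rpow_natCast, ← Real.rpow_mul (by norm_num),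
            ← Real.rpow_mul (by norm_num), mul_comm (Nat.log 2 (μ x) : ℝ) q]
  have h3 : ∀ x ∈ F', Nat.log 2 (μ x) ∈ Finset.range (K + 1) := by
    intro x _
    rw [Finset.mem_range, hK]
    exact Nat.lt_succ_of_le (Nat.log_mono_right (hμM x))
  have h4 : ∀ k ∈ Finset.range (K + 1),
      ((F'.filter fun x => Nat.log 2 (μ x) = k).card : ℝ) ≤
        C0 * n * (Fintype.card Ω : ℝ) ^ (-(1 : ℝ) / d) *
          ((Fintype.card Ω : ℝ) / 2 ^ k) ^ c := by
    intro k _
    rw [hc]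
    refine hL n Ω A D hfam _ (2 ^ k) (one_le_pow₀ (by norm_num)) ?_
    intro x hx
    rw [Finset.mem_filter, hF', Finset.mem_filter] at hx
    have h5 : 2 ^ k ≤ μ x := by
      rw [← hx.2]
      exact Nat.pow_log_le_self 2 (by omega)
    have h6 : mult A D x.1 x.2 = μ x := by rw [hμ]
    rw [h6]
    exact_mod_cast h5
  have hgeo : ∑ k ∈ Finset.range (K + 1), r ^ k ≤ r / (r - 1) * (Fintype.card Ω : ℝ) ^ δ := by
    have h5 : r ^ K ≤ (Fintype.card Ω : ℝ) ^ δ := by
      have h6 : (2 : ℝ) ^ K ≤ Fintype.card Ω := by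
        have : 2 ^ K ≤ Fintype.card Ω := by
          rw [hK]
          exact Nat.pow_log_le_self 2 Fintype.card_ne_zero
        exact_mod_cast this
      calc r ^ K = ((2 : ℝ) ^ K) ^ δ := by
            rw [hr, ← Real.rpow_natCast, ← Real.rpow_natCast, ← Real.rpow_mul (by norm_num),
              ← Real.rpow_mul (by norm_num), mul_comm]
        _ ≤ _ := Real.rpow_le_rpow (by positivity) h6 hδ0.le
    have h6 : 0 < r - 1 := by linarith
    rw [geom_sum_eq hr1.ne']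
    calc (r ^ (K + 1) - 1) / (r - 1) ≤ r ^ (K + 1) / (r - 1) := by
          gcongr
          linarith
      _ = r / (r - 1) * r ^ K := by
          rw [pow_succ]
          ring
      _ ≤ _ := mul_le_mul_of_nonneg_left h5 (by positivity)
  rw [h1]
  calc ∑ x ∈ F', ((μ x : ℕ) : ℝ) ^ q
      ≤ ∑ x ∈ F', 2 ^ q * ((2 : ℝ) ^ q) ^ (Nat.log 2 (μ x)) := Finset.sum_le_sum h2
    _ = ∑ k ∈ Finset.range (K + 1), ∑ x ∈ F' with Nat.log 2 (μ x) = k,
          2 ^ q * ((2 : ℝ) ^ q) ^ (Nat.log 2 (μ x)) :=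
        (Finset.sum_fiberwise_of_maps_to h3 _).symm
    _ = ∑ k ∈ Finset.range (K + 1), ((F'.filter fun x => Nat.log 2 (μ x) = k).card : ℝ) *
          (2 ^ q * ((2 : ℝ) ^ q) ^ k) := by
        refine Finset.sum_congr rfl fun k _ => ?_
        rw [← nsmul_eq_mul, ← Finset.sum_const]
        refine Finset.sum_congr rfl fun x hx => ?_
        rw [(Finset.mem_filter.1 hx).2]
    _ ≤ ∑ k ∈ Finset.range (K + 1), (C0 * n * (Fintype.card Ω : ℝ) ^ (-(1 : ℝ) / d) *
          ((Fintype.card Ω : ℝ) / 2 ^ k) ^ c) * (2 ^ q * ((2 : ℝ) ^ q) ^ k) := by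
        refine Finset.sum_le_sum fun k hk => ?_
        exact mul_le_mul_of_nonneg_right (h4 k hk) (by positivity)
    _ = ∑ k ∈ Finset.range (K + 1), (C0 * n * (Fintype.card Ω : ℝ) ^ (-(1 : ℝ) / d) *
          (Fintype.card Ω : ℝ) ^ c * 2 ^ q) * r ^ k := by
        refine Finset.sum_congr rfl fun k _ => ?_
        have e1 : ((Fintype.card Ω : ℝ) / 2 ^ k) ^ c * ((2 : ℝ) ^ q) ^ k =
            (Fintype.card Ω : ℝ) ^ c * r ^ k := by
          rw [Real.div_rpow (by positivity) (by positivity), hr, hδ, ← Real.rpow_natCast,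
            ← Real.rpow_natCast, ← Real.rpow_natCast, ← Real.rpow_mul (by norm_num),
            ← Real.rpow_mul (by norm_num), ← Real.rpow_mul (by norm_num), div_mul_eq_mul_div,
            mul_div_assoc, ← Real.rpow_sub (by norm_num)]
          congr 2
          ring
        calc (C0 * n * (Fintype.card Ω : ℝ) ^ (-(1 : ℝ) / d) *
              ((Fintype.card Ω : ℝ) / 2 ^ k) ^ c) * (2 ^ q * ((2 : ℝ) ^ q) ^ k)
            = C0 * n * (Fintype.card Ω : ℝ) ^ (-(1 : ℝ) / d) * 2 ^ q *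
              (((Fintype.card Ω : ℝ) / 2 ^ k) ^ c * ((2 : ℝ) ^ q) ^ k) := by ring
          _ = _ := by
            rw [e1]
            ring
    _ = (C0 * n * (Fintype.card Ω : ℝ) ^ (-(1 : ℝ) / d) *
          (Fintype.card Ω : ℝ) ^ c * 2 ^ q) * ∑ k ∈ Finset.range (K + 1), r ^ k :=
        (Finset.mul_sum _ _ _).symm
    _ ≤ (C0 * n * (Fintype.card Ω : ℝ) ^ (-(1 : ℝ) / d) *
          (Fintype.card Ω : ℝ) ^ c * 2 ^ q) * (r / (r - 1) * (Fintype.card Ω : ℝ) ^ δ) :=
        mul_le_mul_of_nonneg_left hgeo (by positivity)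
    _ = C0 * (2 ^ q * (r / (r - 1))) * n * ((Fintype.card Ω : ℝ) ^ (-(1 : ℝ) / d) *
          (Fintype.card Ω : ℝ) ^ c * (Fintype.card Ω : ℝ) ^ δ) := by ring
    _ = C0 * (2 ^ q * (r / (r - 1))) * n * (Fintype.card Ω : ℝ) ^ (q - 1 / (d : ℝ)) := by
        rw [← Real.rpow_add hM0, ← Real.rpow_add hM0]
        congr 2
        rw [hδ]
        ring

end Pool.Agent.W372.HM
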